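import Pool.Agent.H31.UF.Targets

/-!
# SHF: a translation isolates the form `j` (MP_c59857_nt, board uf_modules)
-/

set_option autoImplicit false

open Finset Filter Topology

namespace Pool.Agent.H59.UF

open Pool.Agent.H91.LF Pool.Agent.H31.UF

theorem pf_SHF : T_SHF := by
  intro d r S _ A a a' W c u j x hu hne hj ω
  classical
  have hcl : (∀ i, (ω + u) i ≡ c i [ZMOD W]) ↔ ∀ i, ω i ≡ c i [ZMOD W] := by
    have h1 : ∀ i, (ω + u) i ≡ ω i [ZMOD W] := by
      intro i
      rw [Int.modEq_iff_dvd, Pi.add_apply]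
      have h2 : ω i - (ω i + u i) = -(u i) := by ring
      rw [h2]
      exact (dvd_neg.2 (hu i))
    constructor
    · intro h i
      exact (h1 i).symm.trans (h i)
    · intro h i
      exact (h1 i).trans (h i)
  unfold Fp Hp Pv
  by_cases hc : ∀ i, ω i ≡ c i [ZMOD W]
  · rw [if_pos (hcl.2 hc), if_pos hc, ← Finset.mul_prod_erase Finset.univ _ (Finset.mem_univ j),
      mul_comm]
    congr 1
    · refine Finset.prod_congr rfl fun i hi => Finset.prod_congr rfl fun s _ => ?_
      have hij : i ≠ j := (Finset.mem_erase.1 hi).1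
      rw [lf_add, ← hne i hij s]
      congr 1
      ring
    · refine Finset.prod_congr rfl fun s _ => ?_
      rw [lf_add, ← hj s]
      congr 1
      ring
  · rw [if_neg (fun h => hc (hcl.1 h)), if_neg hc, zero_mul]

end Pool.Agent.H59.UF
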